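import Pool.Agent.ACY.Main

/-!
# MP_94e41a_co: the full answer to Q1

`f(k) ≤ 1 - θ log₂ k / k` for all `k ≥ 3`.
-/

set_option autoImplicit false

namespace Pool.Agent.Results.MP_94e41a_co.FullAnswer

open Finset

/-- An oriented graph on the vertex set `Fin n`. `arc a b` says that there is an arc from `a` to
`b`. The asymmetry axiom excludes loops and pairs of opposite arcs. -/
structure OrientedGraph (n : ℕ) where
  arc : Fin n → Fin n → Prop
  asymm : ∀ a b, arc a b → ¬ arc b a

namespace OrientedGraph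

variable {n : ℕ} (D : OrientedGraph n)

open Classical in
/-- out-degree -/
noncomputable def outDeg (v : Fin n) : ℕ := (univ.filter fun x => D.arc v x).card

open Classical in
/-- in-degree -/
noncomputable def inDeg (v : Fin n) : ℕ := (univ.filter fun x => D.arc x v).card

/-- degree: out-degree plus in-degree -/
noncomputable def deg (v : Fin n) : ℕ := D.outDeg v + D.inDeg v

/-- the subdigraph induced by `S` has no directed cycle
(no closed directed walk of positive length) -/
def AcyclicOn (S : Finset (Fin n)) : Prop :=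
  ∀ v, ¬ Relation.TransGen (fun a b => a ∈ S ∧ b ∈ S ∧ D.arc a b) v v

/-- minimum size of a vertex set whose deletion leaves an acyclic digraph -/
noncomputable def fvs : ℕ := sInf {m | ∃ X : Finset (Fin n), X.card = m ∧ D.AcyclicOn Xᶜ}

end OrientedGraph

/-- the supremum of `fvs D / |V(D)|` over all oriented graphs with all degrees at most `k` -/
noncomputable def f (k : ℕ) : ℝ :=
  sSup {r : ℝ | ∃ (n : ℕ) (D : OrientedGraph n), 0 < n ∧ (∀ v, D.deg v ≤ k) ∧
    r = (D.fvs : ℝ) / (n : ℝ)}

variable {n : ℕ} {D : OrientedGraph n}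

lemma acyclic_of_rank {S : Finset (Fin n)} {r : Fin n → ℕ}
    (h : ∀ a ∈ S, ∀ b ∈ S, D.arc a b → r a < r b) : D.AcyclicOn S := by
  have key : ∀ a b, Relation.TransGen (fun a b => a ∈ S ∧ b ∈ S ∧ D.arc a b) a b → r a < r b := by
    intro a b hab
    induction hab with
    | single h1 => exact h _ h1.1 _ h1.2.1 h1.2.2
    | tail _ h1 ih => exact ih.trans (h _ h1.1 _ h1.2.1 h1.2.2)
  intro v hv
  exact lt_irrefl _ (key v v hv)

lemma fvs_le {S : Finset (Fin n)} (h : D.AcyclicOn S) : D.fvs ≤ n - S.card := by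
  have h1 : Sᶜ.card = n - S.card := by rw [card_compl, Fintype.card_fin]
  rw [← h1]
  exact Nat.sInf_le ⟨Sᶜ, rfl, by rwa [compl_compl]⟩

/-- equal or joined by an arc -/
def adj (D : OrientedGraph n) (v x : Fin n) : Prop := v = x ∨ D.arc v x ∨ D.arc x v

lemma closed_card {k : ℕ} (hk : ∀ v, D.deg v ≤ k) (v : Fin n) (S : Finset (Fin n))
    (hS : ∀ x ∈ S, adj D v x) : S.card ≤ k + 1 := by
  classical
  have hsub : S ⊆ insert v
      ((univ.filter fun x => D.arc v x) ∪ (univ.filter fun x => D.arc x v)) := by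
    intro x hx
    rcases hS x hx with h | h | h
    · exact mem_insert.2 (Or.inl h.symm)
    · exact mem_insert.2 (Or.inr (mem_union.2 (Or.inl (mem_filter.2 ⟨mem_univ _, h⟩))))
    · exact mem_insert.2 (Or.inr (mem_union.2 (Or.inr (mem_filter.2 ⟨mem_univ _, h⟩))))
  have h1 := (card_le_card hsub).trans (card_insert_le _ _)
  have h2 := card_union_le (univ.filter fun x => D.arc v x) (univ.filter fun x => D.arc x v)
  have h3 := hk v
  unfold OrientedGraph.deg OrientedGraph.outDeg OrientedGraph.inDeg at h3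
  have h4 : (univ.filter fun x => D.arc v x).card + (univ.filter fun x => D.arc x v).card ≤ k := by
    exact h3
  omega

/-- the trivial bound from a maximal independent set -/
lemma trivial_bound {k : ℕ} (hk : ∀ v, D.deg v ≤ k) :
    ∃ S : Finset (Fin n), D.AcyclicOn S ∧ n ≤ (k + 1) * S.card := by
  classical
  set F : Finset (Finset (Fin n)) := univ.filter (fun S => ∀ a ∈ S, ∀ b ∈ S, ¬ D.arc a b) with hF
  have hne : F.Nonempty := ⟨∅, by simp [hF]⟩
  obtain ⟨S, hS, hmax⟩ := exists_max_image F card hne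
  have hSi : ∀ a ∈ S, ∀ b ∈ S, ¬ D.arc a b := (mem_filter.1 hS).2
  refine ⟨S, acyclic_of_rank (r := fun _ => 0) fun a ha b hb h => absurd h (hSi a ha b hb), ?_⟩
  have hcov : (univ : Finset (Fin n)) ⊆ S.biUnion fun a => univ.filter (fun x => adj D a x) := by
    intro v _
    rw [mem_biUnion]
    by_contra hcon
    push Not at hcon
    have hv : ∀ a ∈ S, ¬ adj D a v := by
      intro a ha h
      exact hcon a ha (mem_filter.2 ⟨mem_univ _, h⟩)
    have hvS : v ∉ S := fun h => hv v h (Or.inl rfl)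
    have hins : insert v S ∈ F := by
      rw [hF, mem_filter]
      refine ⟨mem_univ _, fun a ha b hb hab => ?_⟩
      rcases mem_insert.1 ha with h1 | h1 <;> rcases mem_insert.1 hb with h2 | h2
      · rw [h1, h2] at hab; exact D.asymm _ _ hab hab
      · rw [h1] at hab; exact hv b h2 (Or.inr (Or.inr hab))
      · rw [h2] at hab; exact hv a h1 (Or.inr (Or.inl hab))
      · exact hSi a h1 b h2 hab
    have := hmax _ hins
    rw [card_insert_of_notMem hvS] at this
    omega
  have h1 := card_le_card hcov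
  rw [card_univ, Fintype.card_fin] at h1
  have h2 : (S.biUnion fun a => univ.filter (fun x => adj D a x)).card ≤ S.card * (k + 1) :=
    card_biUnion_le_card_mul _ _ _ fun a _ => closed_card hk a _ fun x hx => (mem_filter.1 hx).2
  calc n ≤ _ := h1
    _ ≤ S.card * (k + 1) := h2
    _ = (k + 1) * S.card := mul_comm _ _

/-- a lower bound on acyclic sets -/
lemma main_bound {k : ℕ} (hk3 : 3 ≤ k) (hk : ∀ v, D.deg v ≤ k) :
    ∃ S : Finset (Fin n), D.AcyclicOn S ∧
      (1 / 5000 : ℝ) * Real.logb 2 k / k * n ≤ S.card := by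
  have hk0 : (3 : ℝ) ≤ k := by exact_mod_cast hk3
  have hkpos : (0 : ℝ) < k := by linarith
  have hl2a : 0.6931 < Real.log 2 := by have := Real.log_two_gt_d9; linarith
  have hl2b : Real.log 2 < 0.6932 := by have := Real.log_two_lt_d9; linarith
  have he : Real.exp 1 < 2.7183 := by have := Real.exp_one_lt_d9; linarith
  have hl2 : (0 : ℝ) < Real.log 2 := by linarith
  rcases Nat.eq_zero_or_pos n with hn | hn
  · subst hn
    exact ⟨∅, fun v => v.elim0, by simp⟩
  have hn0 : (0 : ℝ) < n := by exact_mod_cast hn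
  set L : ℝ := Real.log k with hL
  have hlb : Real.logb 2 k = L / Real.log 2 := rfl
  by_cases hbig : 100 ≤ L
  · have : Nonempty (Fin n) := ⟨⟨0, hn⟩⟩
    have hLk : L ≤ k := by
      have := Real.log_le_sub_one_of_pos hkpos
      linarith
    have hg : 0 < L / 1000 := by linarith
    have hlg : Real.log (L / 1000) ≤ L / 1000 := by
      have := Real.log_le_sub_one_of_pos hg
      linarith
    have hdeg : Pool.Agent.ACY.DegLe D.arc k := by
      intro v
      exact hk v
    have hcond : 4 * (Real.exp 1 - 1 + Real.log 2 + 18 * (L / 1000) * Real.log 2) ≤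
        Real.log (k / (L / 1000)) := by
      rw [Real.log_div hkpos.ne' hg.ne', ← hL]
      nlinarith
    obtain ⟨S, rk, hcard, hrk⟩ := Pool.Agent.ACY.t_end (Fin n) D.arc k (L / 1000) D.asymm hdeg (by omega) hg
      (by linarith) hcond
    refine ⟨S, acyclic_of_rank hrk, le_trans ?_ hcard⟩
    rw [Fintype.card_fin, hlb]
    have h1 : (1 / 5000 : ℝ) * (L / Real.log 2) ≤ L / 3000 := by
      rw [mul_div_assoc', div_le_div_iff₀ hl2 (by norm_num)]
      nlinarith
    have h2 : L / 1000 * n / (3 * k) = L / 3000 / k * n := by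
      field_simp
      norm_num
    rw [h2]
    exact mul_le_mul_of_nonneg_right (div_le_div_of_nonneg_right h1 hkpos.le) hn0.le
  · push Not at hbig
    obtain ⟨S, hS, hcard⟩ := trivial_bound hk
    refine ⟨S, hS, ?_⟩
    have hcard' : (n : ℝ) ≤ (k + 1) * S.card := by exact_mod_cast hcard
    have h5 : (0 : ℝ) ≤ S.card := Nat.cast_nonneg _
    have h1 : (1 / 5000 : ℝ) * Real.logb 2 k ≤ 1 / 2 := by
      rw [hlb, mul_div_assoc', div_le_iff₀ hl2]
      nlinarith
    have h2 : (1 / 5000 : ℝ) * Real.logb 2 k / k * n ≤ 1 / 2 / k * n :=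
      mul_le_mul_of_nonneg_right (div_le_div_of_nonneg_right h1 hkpos.le) hn0.le
    refine h2.trans ?_
    have h3 : 1 / 2 / (k : ℝ) * n = n / (2 * k) := by
      field_simp
    rw [h3, div_le_iff₀ (by positivity)]
    nlinarith

/-- a lower bound on acyclic sets gives an upper bound for `fvs` -/
lemma fvs_bound {k : ℕ} (hk3 : 3 ≤ k) (hk : ∀ v, D.deg v ≤ k) :
    (D.fvs : ℝ) ≤ (1 - 1 / 5000 * Real.logb 2 k / k) * n := by
  obtain ⟨S, hS, hcard⟩ := main_bound hk3 hk
  have h1 := fvs_le hS
  have h2 : S.card ≤ n := by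
    have := card_le_univ S
    rwa [Fintype.card_fin] at this
  have h3 : (D.fvs : ℝ) ≤ n - S.card := by
    have : (D.fvs : ℝ) ≤ ((n - S.card : ℕ) : ℝ) := by exact_mod_cast h1
    rwa [Nat.cast_sub h2] at this
  rw [sub_mul, one_mul]
  linarith

/-- **Q1 is true.** There is `θ > 0` with `f(k) ≤ 1 - θ log₂ k / k` for all integers `k ≥ 3`.
(`fvs_bound` is the bound for each single oriented graph.) -/
theorem result : ∃ θ : ℝ, 0 < θ ∧ ∀ k : ℕ, 3 ≤ k → f k ≤ 1 - θ * (Real.logb 2 k / k) := by
  refine ⟨1 / 5000, by positivity, fun k hk3 => ?_⟩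
  unfold f
  apply csSup_le
  · refine ⟨_, 1, ⟨fun _ _ => False, fun _ _ h => h.elim⟩, one_pos, fun v => ?_, rfl⟩
    simp [OrientedGraph.deg, OrientedGraph.outDeg, OrientedGraph.inDeg]
  · rintro r ⟨n, D, hn, hdeg, rfl⟩
    have hn0 : (0 : ℝ) < n := by exact_mod_cast hn
    rw [div_le_iff₀ hn0]
    have := fvs_bound hk3 hdeg
    rwa [mul_div_assoc] at this

end Pool.Agent.Results.MP_94e41a_co.FullAnswer
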